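import Pool.Agent.H259.RR.Fred
import Pool.Agent.H259.RR.Gro

/-!
# Reductive operators which are polynomially similar, modulo a Schatten class, to operators with
polynomially bounded resolvents are normal (MP_49c4d9_an)

Let `T` be a reductive operator on a Hilbert space `H`, `q` a nonconstant polynomial, `G` a Banach
space and `J : H → G` left invertible modulo compact operators. Let `S` be an operator on `G` whose
spectrum lies on a rectifiable curve and whose resolvent grows at most like a power of the inverse of
the distance to the curve, and suppose that the approximation numbers of `S J - J q(T)` are `p`-summable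
for some `p < ∞`. Then `T` is normal. So reductive Schatten class perturbations (up to similarity, and
also restrictions of such operators to invariant subspaces) are normal for
* spectral operators of finite type, `S = N + Q`, with spectrum on a curve;
* `n`-normal operators, that is matrices of commuting normal operators, with spectrum on a curve;
* invertible operators with `‖Sⁿ‖ = O(|n|ᵏ)`, `n ∈ ℤ`.

Starting point is the library result `ReductivePolynomialSimilar` (and its project K4H63.RC, RD), in
which `S` has to be normal, or else the self-commutator of `T` has to be compact. Both hypotheses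
were used there to get from asymptotic information to normality: with a normal `S` one has a
functional calculus of `S` and can carry it over to the bicommutant of `T` (which is isometric to its
image modulo compact operators); if the self-commutator is compact the bicommutant of `T` is
commutative modulo adjoints. Neither is available here. Instead:

(a) `T` is normal on the span of its eigenvectors; so let it have no eigenvalues. Then for all
hyperinvariant subspaces `V` (they are reducing, with hyperinvariant complements) `q(T)|V` is scalar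
or has a nontrivial hyperinvariant subspace (`hyp_growth`), for all `S` as above and with no
condition on the spectrum: if the spectrum of `q(T)|V` is one point `λ` then a mean value estimate
for analytic functions bounded by powers of the inverse distance to the curve (`L1`) shows that some
power of `q(T)|V - λ` is compact (`ess_single`), and Lomonosov's theorem applies. As in the library
this implies that no compact operator but `0` commutes with the commutant, that the norm is the
essential norm on the bicommutant `{T}''`, and that the resolvent of `A = q(T)` exists off the curve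
and grows at most polynomially there (`part_growth`).
(b) For almost all lines the area integrals of `(z - A)⁻¹` against `∂̄`-derivatives of cutoff functions
for the two sides of the line converge (`cutoffs`). The kernel of one of these integrals is
hyperinvariant, hence reducing, and so the space is the orthogonal sum of two hyperinvariant
subspaces such that the spectra of the parts of `A` lie in the two closed half planes (`split`). By
bisection, for each `r > 0` the space is a finite orthogonal sum of hyperinvariant subspaces `V_i` on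
which the spectrum of `A` lies in a disc with radius `r / 2` and centre `c_i`; and there
`‖(A - c_i)ⁿ‖ ≤ C r ^ (n + 1 - 2 k)`, because the resolvent is bounded by `C' / r ^ (2 k)` on the circle
of radius `r` about `c_i` by (`L1`), although this circle may run along the curve (`block`).
(c) Hence the normal operators `D_r = ∑ c_i P_i`, in `{T}''`, satisfy
`‖(A - D_r)ⁿ‖ ≤ C r ^ (n + 1 - 2 k)`. The operators `D_r - D_s` are normal, so their norms are their
spectral radii, `‖D_r - D_s‖ ≤ r + s` (`close`); let `D = lim D_r`. Then `D` is normal, in `{T}''`, and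
`(A - D) ^ (2 k) = 0`. A nilpotent operator in `{T}''` is `0` because its kernel is hyperinvariant,
hence reducing with hyperinvariant complement (`nil_zero`). So `A = D` is normal (`cent_normal`: this
holds for every `A` in the bicommutant of a reductive operator with spectrum on a rectifiable curve
and resolvent of polynomial growth), and then `T` is normal (library lemma `normal_of_poly`).
(d) Left inverses modulo compact operators are left inverses after adding a finite dimensional space
to `G` (`final_ess`).
(e) `Gro`, `NN`: growth of the resolvents in the three examples; for matrices `(N i j)` of commuting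
normal operators the determinant of `z - N` is in a commutative C*-algebra, its characters give
`|det| ≥ dist(z, σ)ⁿ`, and the adjugate is bounded.
-/

set_option autoImplicit false

open Polynomial Metric

namespace Pool.Agent.Results.MP_49c4d9_an.PolynomialGrowthModel

/-- `T` is reductive: every closed invariant subspace of `T` is invariant under the adjoint. -/
def Reductive {H : Type} [NormedAddCommGroup H] [InnerProductSpace ℂ H] [CompleteSpace H]
    (T : H →L[ℂ] H) : Prop :=
  ∀ V : Submodule ℂ H, IsClosed (V : Set H) → (∀ x ∈ V, T x ∈ V) →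
    ∀ x ∈ V, ContinuousLinearMap.adjoint T x ∈ V

section Defs

variable {H G : Type} [NormedAddCommGroup H] [NormedSpace ℂ H]
  [NormedAddCommGroup G] [NormedSpace ℂ G]

/-- The `m`-th approximation number of `D`: the distance in operator norm from `D` to the operators
of rank at most `m` (for Hilbert spaces the singular number `s_{m+1}(D)`). -/
noncomputable def approxNumber (D : H →L[ℂ] G) (m : ℕ) : ℝ :=
  sInf {r : ℝ | ∃ F : H →L[ℂ] G, FiniteDimensional ℂ (LinearMap.range (F : H →ₗ[ℂ] G)) ∧
    Module.finrank ℂ (LinearMap.range (F : H →ₗ[ℂ] G)) ≤ m ∧ r = ‖D - F‖}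

/-- `D` is in a Schatten class: its approximation numbers are `p`-summable for some finite
`p > 0`. -/
def InSchatten (D : H →L[ℂ] G) : Prop :=
  ∃ p : ℝ, 0 < p ∧ Summable fun m : ℕ => approxNumber D m ^ p

end Defs

/-- `Γ` is a rectifiable curve: the image of `[0,1]` under a Lipschitz map. -/
def RectifiableCurve (Γ : Set ℂ) : Prop :=
  ∃ (γ : ℝ → ℂ) (L : NNReal), LipschitzWith L γ ∧ Γ = γ '' Set.Icc 0 1

/-- The resolvent of `S` exists off `Γ` and grows at most polynomially at `Γ`. -/
def PolyGrowth {G : Type} [NormedAddCommGroup G] [NormedSpace ℂ G] (S : G →L[ℂ] G)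
    (Γ : Set ℂ) : Prop :=
  (∀ z, z ∉ Γ → z ∈ resolventSet ℂ S) ∧
    ∃ (C : ℝ) (k : ℕ), ∀ z, z ∉ Γ → infDist z Γ ≤ 1 → ‖resolvent S z‖ ≤ C / infDist z Γ ^ k

/-- Up to a Schatten class operator, `q(T)` is the restriction of `S` to an invariant subspace, up to
similarity (modulo compact operators): there is a bounded operator `J`, left invertible modulo
compact operators, with `S J - J q(T)` in a Schatten class. -/
def Model {H G : Type} [NormedAddCommGroup H] [NormedSpace ℂ H] [NormedAddCommGroup G]
    [NormedSpace ℂ G] (T : H →L[ℂ] H) (q : ℂ[X]) (S : G →L[ℂ] G) : Prop :=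
  ∃ (J : H →L[ℂ] G) (L : G →L[ℂ] H), IsCompactOperator (L.comp J - 1 : H →L[ℂ] H) ∧
    InSchatten (S.comp J - J.comp (aeval T q))

/-- `S` is the sum of a normal operator with spectrum in `Γ` and a commuting nilpotent operator. -/
def FiniteType {G : Type} [NormedAddCommGroup G] [InnerProductSpace ℂ G] [CompleteSpace G]
    (S : G →L[ℂ] G) (Γ : Set ℂ) : Prop :=
  ∃ (N Q : G →L[ℂ] G) (m : ℕ), S = N + Q ∧ IsStarNormal N ∧ spectrum ℂ N ⊆ Γ ∧ N * Q = Q * N ∧
    Q ^ m = 0

/-- `S`, on the Hilbert space sum of `n` copies of `K`, is a matrix of commuting normal operators,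
with spectrum in `Γ`. -/
def NNormal {K : Type} [NormedAddCommGroup K] [InnerProductSpace ℂ K] [CompleteSpace K] {n : ℕ}
    (S : (PiLp 2 fun _ : Fin n => K) →L[ℂ] PiLp 2 fun _ : Fin n => K) (Γ : Set ℂ) : Prop :=
  ∃ N : Fin n → Fin n → K →L[ℂ] K, (∀ x i, S x i = ∑ j, N i j (x j)) ∧
    (∀ i j, IsStarNormal (N i j)) ∧ (∀ i j k l, N i j * N k l = N k l * N i j) ∧
    spectrum ℂ S ⊆ Γ

/-- `S` is invertible and `‖Sⁿ‖ = O(|n|ᵏ)` for some `k`, `n ∈ ℤ`. -/
def PolyPowers {G : Type} [NormedAddCommGroup G] [NormedSpace ℂ G] (S : G →L[ℂ] G) : Prop :=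
  ∃ (R : G →L[ℂ] G) (C : ℝ) (k : ℕ), S * R = 1 ∧ R * S = 1 ∧
    ∀ n : ℕ, ‖S ^ n‖ ≤ C * ((n : ℝ) + 1) ^ k ∧ ‖R ^ n‖ ≤ C * ((n : ℝ) + 1) ^ k

section aux

variable {H : Type} [NormedAddCommGroup H] [NormedSpace ℂ H]
variable {G : Type} [NormedAddCommGroup G] [NormedSpace ℂ G]

theorem bdd (K : H →L[ℂ] G) (m : ℕ) :
    BddBelow {r : ℝ | ∃ F : H →L[ℂ] G, FiniteDimensional ℂ (LinearMap.range (F : H →ₗ[ℂ] G)) ∧
      Module.finrank ℂ (LinearMap.range (F : H →ₗ[ℂ] G)) ≤ m ∧ r = ‖K - F‖} := by
  refine ⟨0, ?_⟩
  rintro r ⟨F, -, -, rfl⟩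
  exact norm_nonneg _

theorem ne (K : H →L[ℂ] G) (m : ℕ) :
    {r : ℝ | ∃ F : H →L[ℂ] G, FiniteDimensional ℂ (LinearMap.range (F : H →ₗ[ℂ] G)) ∧
      Module.finrank ℂ (LinearMap.range (F : H →ₗ[ℂ] G)) ≤ m ∧ r = ‖K - F‖}.Nonempty := by
  have h0 : LinearMap.range ((0 : H →L[ℂ] G) : H →ₗ[ℂ] G) = ⊥ := LinearMap.range_zero
  refine ⟨‖K - 0‖, 0, ?_, ?_, rfl⟩
  · rw [h0]; infer_instance
  · rw [h0]; simp

theorem approx_nonneg (K : H →L[ℂ] G) (m : ℕ) : 0 ≤ approxNumber K m := by
  refine le_csInf (ne K m) ?_
  rintro r ⟨F, -, -, rfl⟩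
  exact norm_nonneg _

theorem approx_anti (K : H →L[ℂ] G) {m n : ℕ} (h : m ≤ n) :
    approxNumber K n ≤ approxNumber K m := by
  refine csInf_le_csInf (bdd K n) (ne K m) ?_
  rintro r ⟨F, h1, h2, rfl⟩
  exact ⟨F, h1, h2.trans h, rfl⟩

theorem decay_of_summable {K : H →L[ℂ] G} (h : InSchatten K) :
    ∃ C ε : ℝ, 0 < ε ∧ ∀ m : ℕ, 1 ≤ m → approxNumber K m ≤ C / (m : ℝ) ^ ε := by
  obtain ⟨p, hp, hs⟩ := h
  set S : ℝ := ∑' m : ℕ, approxNumber K m ^ p with hS
  have hS0 : 0 ≤ S := tsum_nonneg fun m => Real.rpow_nonneg (approx_nonneg K m) _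
  refine ⟨S ^ (1 / p), 1 / p, by positivity, fun m hm => ?_⟩
  have hm0 : (0 : ℝ) < m := by exact_mod_cast hm
  have h1 : (m : ℝ) * approxNumber K m ^ p ≤ S := by
    calc (m : ℝ) * approxNumber K m ^ p = ∑ _i ∈ Finset.range m, approxNumber K m ^ p := by simp
      _ ≤ ∑ i ∈ Finset.range m, approxNumber K i ^ p := by
          refine Finset.sum_le_sum fun i hi => ?_
          exact Real.rpow_le_rpow (approx_nonneg K m) (approx_anti K (Finset.mem_range.1 hi).le) hp.le
      _ ≤ S := hs.sum_le_tsum _ fun i _ => Real.rpow_nonneg (approx_nonneg K i) _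
  have h2 : approxNumber K m ^ p ≤ S / m := by
    rw [le_div_iff₀ hm0]
    linarith
  have h3 : (approxNumber K m ^ p) ^ (1 / p) ≤ (S / m) ^ (1 / p) :=
    Real.rpow_le_rpow (Real.rpow_nonneg (approx_nonneg K m) _) h2 (by positivity)
  rw [← Real.rpow_mul (approx_nonneg K m), mul_one_div_cancel hp.ne', Real.rpow_one,
    Real.div_rpow hS0 hm0.le] at h3
  exact h3

theorem decay {D : H →L[ℂ] G} (h : InSchatten D) :
    ∃ C ε : ℝ, 0 < ε ∧ ∀ m : ℕ, 1 ≤ m → ∃ F : H →L[ℂ] G,
      FiniteDimensional ℂ (LinearMap.range (F : H →ₗ[ℂ] G)) ∧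
      Module.finrank ℂ (LinearMap.range (F : H →ₗ[ℂ] G)) ≤ m ∧ ‖D - F‖ ≤ C / (m : ℝ) ^ ε := by
  obtain ⟨C, ε, hε, h⟩ := decay_of_summable h
  refine ⟨C + 1, ε, hε, fun m hm => ?_⟩
  have hm0 : (0 : ℝ) < m := by exact_mod_cast hm
  have h1 : approxNumber D m < (C + 1) / (m : ℝ) ^ ε := by
    refine (h m hm).trans_lt ?_
    have : (0 : ℝ) < (m : ℝ) ^ ε := by positivity
    gcongr
    linarith
  obtain ⟨r, ⟨F, hF1, hF2, rfl⟩, hr⟩ := exists_lt_of_csInf_lt (ne D m) h1
  exact ⟨F, hF1, hF2, hr.le⟩

end aux

section fin

variable {H : Type} [NormedAddCommGroup H] [InnerProductSpace ℂ H] [CompleteSpace H]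

theorem growth_case {G : Type} [NormedAddCommGroup G] [NormedSpace ℂ G] [CompleteSpace G]
    {T : H →L[ℂ] H} (hT : Reductive T) {q : ℂ[X]} (hq : 0 < q.natDegree) {S : G →L[ℂ] G} {Γ : Set ℂ}
    (hM : Model T q S) (hΓ : RectifiableCurve Γ) (hS : PolyGrowth S Γ) : IsStarNormal T := by
  obtain ⟨γ, L₀, hγ, rfl⟩ := hΓ
  obtain ⟨J, L, hL, hD⟩ := hM
  exact Pool.Agent.H259.RR.final_ess hγ hS.1 hS.2 hT hq hL (decay hD)

theorem curve_compact {Γ : Set ℂ} (hΓ : RectifiableCurve Γ) : IsCompact Γ ∧ Γ.Nonempty := by
  obtain ⟨γ, L₀, hγ, rfl⟩ := hΓ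
  exact ⟨isCompact_Icc.image hγ.continuous, ⟨γ 0, 0, by simp, rfl⟩⟩

end fin

/-- **Theorem.** Let `T` be a reductive operator on a Hilbert space, `q` a nonconstant polynomial and
`Γ` a rectifiable curve. Suppose that modulo a Schatten class `q(T)` is, up to similarity, the
restriction of `S` to an invariant subspace (`Model`), for an operator `S` on a Banach space (a
Hilbert space in (2) and (3)). Then `T` is normal in each of the following cases.
(1) The spectrum of `S` lies on `Γ` and the resolvent of `S` grows at most polynomially at `Γ`.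
(2) `S` is the sum of a normal operator, with spectrum on `Γ`, and of a nilpotent operator commuting
with it.
(3) `S` is an `n`-normal operator, that is an `n × n` matrix of commuting normal operators, and its
spectrum lies on `Γ`.
(4) `S` is invertible and `‖Sⁿ‖ = O(|n|ᵏ)` for `n ∈ ℤ` and some `k`. -/
theorem result (H : Type) [NormedAddCommGroup H] [InnerProductSpace ℂ H] [CompleteSpace H]
    (T : H →L[ℂ] H) (hT : Reductive T) (q : ℂ[X]) (hq : 0 < q.natDegree) (Γ : Set ℂ)
    (hΓ : RectifiableCurve Γ) :
    (∀ (G : Type) [NormedAddCommGroup G] [NormedSpace ℂ G] [CompleteSpace G] (S : G →L[ℂ] G),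
      Model T q S → PolyGrowth S Γ → IsStarNormal T) ∧
    (∀ (G : Type) [NormedAddCommGroup G] [InnerProductSpace ℂ G] [CompleteSpace G]
      (S : G →L[ℂ] G), Model T q S → FiniteType S Γ → IsStarNormal T) ∧
    (∀ (K : Type) [NormedAddCommGroup K] [InnerProductSpace ℂ K] [CompleteSpace K] (n : ℕ)
      (S : (PiLp 2 fun _ : Fin n => K) →L[ℂ] PiLp 2 fun _ : Fin n => K),
      Model T q S → NNormal S Γ → IsStarNormal T) ∧
    (∀ (G : Type) [NormedAddCommGroup G] [NormedSpace ℂ G] [CompleteSpace G] (S : G →L[ℂ] G),
      Model T q S → PolyPowers S → IsStarNormal T) := by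
  obtain ⟨hc, hne⟩ := curve_compact hΓ
  refine ⟨?_, ?_, ?_, ?_⟩
  · intro G _ _ _ S hM hS
    exact growth_case hT hq hM hΓ hS
  · rintro G _ _ _ S hM ⟨N, Q, m, rfl, hN, hsp, hNQ, hQ⟩
    obtain ⟨h1, h2⟩ := Pool.Agent.H259.RR.growth_normal hN hc hne hsp
    exact growth_case hT hq hM hΓ (Pool.Agent.H259.RR.growth_nil hNQ hQ hc.isClosed hne h1 h2)
  · rintro K _ _ _ n S hM ⟨N, hS, hN, hNN, hsp⟩
    have hSN : S = Pool.Agent.H259.HA.mop (Matrix.of N) := by
      refine Pool.Agent.H259.HA.mop_ext fun x i => ?_
      rw [Pool.Agent.H259.HA.mop_apply, hS]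
      rfl
    have h1 : ∀ i j k l, Commute ((Matrix.of N) i j) (star ((Matrix.of N) k l)) := by
      intro i j k l
      exact (hN k l).commute_star_right (hNN k l i j).symm
    refine growth_case hT hq hM hΓ ⟨fun z hz => ?_, ?_⟩
    · by_contra h
      exact hz (hsp h)
    · rw [hSN] at hsp ⊢
      exact Pool.Agent.H259.RR.growth_nn _ (fun i j k l => hNN i j k l) h1 hc hne hsp
  · rintro G _ _ _ S hM ⟨S', C, k, h1, h2, h3⟩
    exact growth_case hT hq hM Pool.Agent.H259.RR.circle_curve
      (Pool.Agent.H259.RR.growth_pow h1 h2 (fun n => (h3 n).1) fun n => (h3 n).2)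

end Pool.Agent.Results.MP_49c4d9_an.PolynomialGrowthModel
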