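import Pool.Agent.H933.EP.Fin
import Pool.Agent.H933.EP.Hth
import Pool.Agent.H933.EP.Alg7
import Pool.Agent.H52.RN.Toesc
import Pool.Graph.R_pool_sql_team_seeded_3997aac3.Q76.RT.Line

/-!
# Reductive operators and centres of reductive algebras: operators with slowly growing resolvents are normal

A reductive algebra is an algebra of operators on a Hilbert space whose closed invariant subspaces are all
reducing. We consider operators `T` in the centre of a reductive algebra: the reductive operators (the algebra generated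
by `T`), and all the members of commutative reductive algebras. A point `l` of the plane is good for `T` if near `l` the
spectrum of `T` is a null set and `log⁺ log⁺ ‖(z - T)⁻¹‖ ≤ a(z) + b(z)`, where `a ^ q` is integrable with respect to the
area for some `q > 1` and `b` has thin level sets (for example `b` is a nonincreasing integrable function of the
vertical distance from a continuous graph: the condition of Levinson).

* (criterion) Let `T` be in the centre of a reductive algebra, `q` a nonconstant polynomial, and let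
  `T* T - T T*` be compact, or `N J - J q(T)` compact for some normal `N` with null spectrum and some `J` which is
  bounded below. If all points of the spectrum of `q(T)` outside a totally disconnected set are good for
  `q(T)`, then `T` is normal.
* (individual perturbations) Let `N` be normal and `K` compact. A point `l` is favourable if
  `s_n(K) = O((log n) ^ (-1/η))` and the spectrum of `N` is accessible at `l` (a condition on the quasi-hyperbolic metric of
  the complement), or if near `l` the spectrum of `N` lies on the graph of a Hölder function of order `α > 1/2` and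
  `∑ s_n(K) ^ (2 α - 1) / n < ∞` (for `α = 1`, e.g. for smooth curves, the Macaev ideal). Suppose that the points of the
  spectrum of `N` which are not favourable form a totally disconnected set. If `N + K` is in the centre of a
  reductive algebra, it is normal. The same is true for all `T` in the centre of a reductive algebra for which a
  nonconstant polynomial `q(T)` is similar to the restriction of `N + K` to a closed invariant subspace, if
  `T* T - T T*` is compact or the spectrum of `N` is a null set. The theorem of Nordgren, Radjavi and Rosenthal is the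
  case of reductive `N + K`, of the line and the circle, and of Schatten classes.
* (imaginary part) In particular the members `T` of commutative reductive algebras and the reductive operators with
  `T - T*` in the Macaev ideal are normal.
* (algebras) Let `𝒢` be a commuting set of operators `T` with `T - T*` in the Macaev ideal, or to which one of the
  other theorems applies. Then the weakly closed algebra generated by `𝒢` is reductive if and only if it is
  self-adjoint (a von Neumann algebra).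
* (couplings) If instead the spectrum of `N` is thin at all its points outside a totally disconnected set,
  the same holds for `N + κ K` for all couplings `κ` outside a set of logarithmic capacity zero.
* (Toeplitz operators) A Toeplitz operator with a Hölder continuous symbol of order `> 1/2`, or of any positive order
  and with thin image, is in the centre of a reductive algebra if and only if it is reductive, if and only if it is
  normal, if and only if the values of the symbol lie on a line.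

The minimal dimension argument and the functional calculus modulo compact operators are from the library (`W706.HIR`,
`K4H63.RD`, there for one reductive operator; here they are extended to centres of reductive algebras), and also
the theorem of Sarason on commuting normal operators (`Y852.RQ`, MP_65e938_an); the hyperinvariant subspaces are
those of `LogLogResolvents` (MP_f981b0_an), extended here to operators similar to restrictions of `N + K`.
-/

set_option autoImplicit false

open MeasureTheory Metric Polynomial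
open scoped Real InnerProductSpace NNReal ENNReal

namespace Pool.Agent.Results.MP_49c4d9_an.ReductiveLogLog

section Defs

variable {H : Type} [NormedAddCommGroup H] [InnerProductSpace ℂ H]
variable {G : Type} [NormedAddCommGroup G] [InnerProductSpace ℂ G]

/-- `T` is reductive: every closed invariant subspace of `T` is invariant under the adjoint. -/
def Reductive [CompleteSpace H] (T : H →L[ℂ] H) : Prop :=
  ∀ V : Submodule ℂ H, IsClosed (V : Set H) → (∀ x ∈ V, T x ∈ V) →
    ∀ x ∈ V, ContinuousLinearMap.adjoint T x ∈ V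

/-- The set `F` of operators is reductive: every closed subspace which is invariant under all members of `F` is
invariant under their adjoints. (So the weakly closed algebra generated by `F` is a reductive algebra.) -/
def ReductiveFamily [CompleteSpace H] (F : Set (H →L[ℂ] H)) : Prop :=
  ∀ V : Submodule ℂ H, IsClosed (V : Set H) → (∀ S ∈ F, ∀ x ∈ V, S x ∈ V) →
    ∀ S ∈ F, ∀ x ∈ V, ContinuousLinearMap.adjoint S x ∈ V

/-- `T` is in the centre of a reductive algebra: it is a member of a reductive set of operators and commutes with all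
its members. -/
def CentralInReductive [CompleteSpace H] (T : H →L[ℂ] H) : Prop :=
  ∃ F : Set (H →L[ℂ] H), ReductiveFamily F ∧ T ∈ F ∧ ∀ S ∈ F, T * S = S * T

/-- The weakly closed algebra generated by a set `𝒢` of operators: the closure in the weak operator topology of the
algebra (with the identity) of the polynomials in members of `𝒢`. -/
def genAlg (𝒢 : Set (H →L[ℂ] H)) : Set (H →L[ℂ] H) :=
  {S | ContinuousLinearMapWOT.ofCLM S ∈ closure (ContinuousLinearMapWOT.ofCLM ''
    (Algebra.adjoin ℂ 𝒢 : Set (H →L[ℂ] H)))}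

/-- The self-commutator `T* T - T T*` is compact. -/
def CompactSelfCommutator [CompleteSpace H] (T : H →L[ℂ] H) : Prop :=
  IsCompactOperator (ContinuousLinearMap.adjoint T * T - T * ContinuousLinearMap.adjoint T :
    H →L[ℂ] H)

/-- `J` is bounded below: a linear homeomorphism onto a closed subspace. -/
def BoundedBelow (J : H →L[ℂ] G) : Prop :=
  ∃ c : ℝ, 0 < c ∧ ∀ x, c * ‖x‖ ≤ ‖J x‖

/-- `A` is, up to compact operators, similar to the restriction of a normal operator with null spectrum to an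
invariant subspace: `N J - J A` is compact, `J` bounded below. -/
def NormalModel (A : H →L[ℂ] H) : Prop := ∃ (G : Type) (_ : NormedAddCommGroup G)
  (_ : InnerProductSpace ℂ G) (_ : CompleteSpace G) (N : G →L[ℂ] G) (J : H →L[ℂ] G),
  IsStarNormal N ∧ volume (spectrum ℂ N) = 0 ∧ BoundedBelow J ∧
    IsCompactOperator (N.comp J - J.comp A : H →L[ℂ] G)

/-- The level sets of `b` in `U` are thin: the part of `U` where `b ≥ k` fills at most the area `ρ ^ 2 / 8` of the
discs of radius `ρ ≥ r k`, where `∑ r k < ∞`. -/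
def ThinLevels (b : ℂ → ℝ) (U : Set ℂ) : Prop := ∃ r : ℕ → ℝ, (∀ k, 0 ≤ r k) ∧ Summable r ∧
  ∀ (k : ℕ) (z : ℂ) (ρ : ℝ), r k ≤ ρ → 0 < ρ →
    volume {w : ℂ | w ∈ ball z ρ ∧ w ∈ U ∧ (k : ℝ) ≤ b w} ≤ ENNReal.ofReal (ρ ^ 2 / 8)

/-- The point `l` is good for `T`: near `l` the spectrum of `T` is a null set and
`log⁺ log⁺ ‖(z - T)⁻¹‖ ≤ a z + b z`, `a ≥ 0`, `a ^ q` integrable with respect to the area for some `q > 1`, `b` with thin
level sets. -/
def GoodPoint (T : H →L[ℂ] H) (l : ℂ) : Prop := ∃ (q r : ℝ) (a b : ℂ → ℝ), 1 < q ∧ 0 < r ∧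
  volume (spectrum ℂ T ∩ ball l r) = 0 ∧ (∀ z, 0 ≤ a z) ∧
  IntegrableOn (fun z => a z ^ q) (ball l r) ∧ ThinLevels b (ball l r) ∧
  ∀ᵐ z ∂(volume.restrict (ball l r)), Real.posLog (Real.posLog ‖resolvent T z‖) ≤ a z + b z

/-- Every operator `T` in the centre of a reductive algebra such that `q(T)`, for some nonconstant polynomial `q`, is
similar to the restriction of `C` to a closed invariant subspace, is normal. -/
def ModelsNormal (C : G →L[ℂ] G) : Prop :=
  ∀ (H : Type) [NormedAddCommGroup H] [InnerProductSpace ℂ H] [CompleteSpace H]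
    (T : H →L[ℂ] H) (q : ℂ[X]) (J : H →L[ℂ] G), CentralInReductive T → 0 < q.natDegree →
    BoundedBelow J → C.comp J = J.comp (aeval T q) → IsStarNormal T

/-- The same for the operators `T` with compact self-commutator. -/
def CompactModelsNormal (C : G →L[ℂ] G) : Prop :=
  ∀ (H : Type) [NormedAddCommGroup H] [InnerProductSpace ℂ H] [CompleteSpace H]
    (T : H →L[ℂ] H) (q : ℂ[X]) (J : H →L[ℂ] G), CentralInReductive T → CompactSelfCommutator T →
    0 < q.natDegree → BoundedBelow J → C.comp J = J.comp (aeval T q) → IsStarNormal T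

/-- `s_n(K) = O((log n) ^ (-1/η))`: the operator `K` has a singular value decomposition
`K x = ∑ s i ⟪e i, x⟫ f i` with orthonormal families `e`, `f`, `s i ≥ 0`, and at most
`exp (C δ ^ (-η))` of the numbers `s i` are greater than `δ`, for `0 < δ ≤ 1`. -/
def SingularDecay (K : H →L[ℂ] H) (η : ℝ) : Prop :=
  ∃ (ι : Type) (e f : ι → H) (s : ι → ℝ), Orthonormal ℂ e ∧ Orthonormal ℂ f ∧ (∀ i, 0 ≤ s i) ∧
    (∃ C : ℝ, ∀ δ : ℝ, 0 < δ → δ ≤ 1 → {i | δ < s i}.Finite ∧
      ({i | δ < s i}.ncard : ℝ) ≤ Real.exp (C * δ ^ (-η))) ∧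
    ∀ x, HasSum (fun i => ((s i : ℂ) * ⟪e i, x⟫_ℂ) • f i) (K x)

/-- `∑ s_n(K) ^ β / n < ∞` (the Macaev ideal for `β = 1`), in terms of the number `n(δ)` of singular values
greater than `δ`: `∫_0^1 δ ^ (β - 1) log (1 + n(δ)) dδ < ∞`. -/
def MacaevClass (K : H →L[ℂ] H) (β : ℝ) : Prop :=
  ∃ (ι : Type) (e f : ι → H) (s : ι → ℝ), Orthonormal ℂ e ∧ Orthonormal ℂ f ∧ (∀ i, 0 ≤ s i) ∧
    (∀ δ : ℝ, 0 < δ → {i | δ < s i}.Finite) ∧
    IntegrableOn (fun δ : ℝ => δ ^ (β - 1) * Real.log (1 + ({i | δ < s i}.ncard : ℝ))) (Set.Ioc 0 1) ∧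
    ∀ x, HasSum (fun i => ((s i : ℂ) * ⟪e i, x⟫_ℂ) • f i) (K x)

/-- `K` is in the Schatten class `C_p`. -/
def Schatten (K : H →L[ℂ] H) (p : ℝ) : Prop :=
  ∃ (ι : Type) (e f : ι → H) (s : ι → ℝ), Orthonormal ℂ e ∧ Orthonormal ℂ f ∧ (∀ i, 0 ≤ s i) ∧
    (Summable fun i => s i ^ p) ∧ ∀ x, HasSum (fun i => ((s i : ℂ) * ⟪e i, x⟫_ℂ) • f i) (K x)

/-- Near `l` the set `E` lies on the graph of a Hölder continuous function `φ` of order `α`, after a rotation
`z ↦ u z`. -/
def OnHoelderGraph (E : Set ℂ) (l : ℂ) (α : ℝ) : Prop := ∃ (φ : ℝ → ℝ) (L R : ℝ) (u : ℂ),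
  (∀ s t : ℝ, |φ s - φ t| ≤ L * |s - t| ^ α) ∧ ‖u‖ = 1 ∧ 0 < R ∧
  ∀ z ∈ E, z ∈ ball l R → (u * z).im = φ (u * z).re

/-- The set `E` is accessible at `l` with the exponent `η`: it is contained in a closed set `E'`, which
is null near `l`, and every point `z` near `l` off `E'` is joined to one of finitely many points off `E'` by a
chain `c 0, ..., c N` with steps of length at most `dist(c j, E') / 4` and with total cost
`∑ (min 1 dist(c j, E')) ^ (-η)` at most `g z`, where `|g| ^ q` is integrable near `l` for some `q > 1`. -/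
def Accessible (E : Set ℂ) (l : ℂ) (η : ℝ) : Prop := ∃ (E' : Set ℂ) (ρ q : ℝ) (g : ℂ → ℝ)
  (B : Finset ℂ), IsClosed E' ∧ E ⊆ E' ∧ 0 < ρ ∧ 1 < q ∧ volume (E' ∩ ball l ρ) = 0 ∧
  Measurable g ∧ IntegrableOn (fun z : ℂ => |g z| ^ q) (ball l ρ) ∧ (∀ b ∈ B, b ∉ E') ∧
  ∀ z ∈ ball l ρ, z ∉ E' → ∃ (N : ℕ) (c : ℕ → ℂ), c 0 ∈ B ∧ c N = z ∧
    (∀ j < N, ‖c (j + 1) - c j‖ ≤ infDist (c j) E' / 4) ∧
    ∑ j ∈ Finset.range (N + 1), (min 1 (infDist (c j) E')) ^ (-η) ≤ g z

/-- The point `l` of `E` is favourable for `K`. -/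
def Favourable (E : Set ℂ) (K : H →L[ℂ] H) (l : ℂ) : Prop :=
  (∃ η : ℝ, 0 < η ∧ SingularDecay K η ∧ Accessible E l η) ∨
  ∃ α : ℝ, 1 / 2 < α ∧ α ≤ 1 ∧ MacaevClass K (2 * α - 1) ∧ OnHoelderGraph E l α

/-- `E` is thin at `l`: a null set near `l`, and `dist(z, E) ^ (-s)` is integrable near `l`. -/
def ThinAt (E : Set ℂ) (l : ℂ) (s : ℝ) : Prop := ∃ r : ℝ, 0 < r ∧ volume (E ∩ ball l r) = 0 ∧
  IntegrableOn (fun z : ℂ => (infDist z E) ^ (-s)) (ball l r)

/-- The set `S` has logarithmic capacity zero: it is a null set for every finite measure without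
atoms, carried by a disc, with bounded logarithmic potential. -/
def CapacityZero (S : Set ℂ) : Prop := ∀ μ : Measure ℂ, IsFiniteMeasure μ →
  (∃ r : ℝ, μ (ball (0 : ℂ) r)ᶜ = 0) → (∀ a : ℂ, μ {a} = 0) →
  (∃ A : ℝ, ∀ a : ℂ, ∫⁻ κ, ENNReal.ofReal (Real.posLog ‖κ - a‖⁻¹) ∂μ ≤ ENNReal.ofReal A) → μ S = 0

/-- `E` is a nonempty closed null set and `(log⁺ (1 / dist(z, E))) ^ p` is integrable over discs. -/
def LogThin (E : Set ℂ) (p : ℝ) : Prop :=
  IsClosed E ∧ E.Nonempty ∧ volume E = 0 ∧
    ∀ r : ℝ, IntegrableOn (fun z : ℂ => (Real.posLog (infDist z E)⁻¹) ^ p) (ball (0 : ℂ) r)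

/-- The values of `φ` lie on a line of the plane. -/
def ValuesOnLine (φ : UnitAddCircle → ℂ) : Prop :=
  ∃ a μ : ℂ, μ ≠ 0 ∧ ∀ t, ∃ r : ℝ, φ t = a + r * μ

end Defs

/-- The criterion. -/
def Criterion : Prop :=
  ∀ (H : Type) [NormedAddCommGroup H] [InnerProductSpace ℂ H] [CompleteSpace H]
    (T : H →L[ℂ] H) (q : ℂ[X]), 0 < q.natDegree →
    CentralInReductive T → (CompactSelfCommutator T ∨ NormalModel (aeval T q)) →
    IsTotallyDisconnected {z | z ∈ spectrum ℂ (aeval T q) ∧ ¬ GoodPoint (aeval T q) z} →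
    IsStarNormal T

/-- Individual perturbations. -/
def Individual : Prop :=
  ∀ (G : Type) [NormedAddCommGroup G] [InnerProductSpace ℂ G] [CompleteSpace G]
    (N K : G →L[ℂ] G), IsStarNormal N → IsCompactOperator K →
    IsTotallyDisconnected {z | z ∈ spectrum ℂ N ∧ ¬ Favourable (spectrum ℂ N) K z} →
    (CentralInReductive (N + K) → IsStarNormal (N + K)) ∧ CompactModelsNormal (N + K) ∧
    (volume (spectrum ℂ N) = 0 → ModelsNormal (N + K))

/-- Imaginary part in the Macaev ideal. -/
def ImaginaryPart : Prop :=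
  ∀ (G : Type) [NormedAddCommGroup G] [InnerProductSpace ℂ G] [CompleteSpace G]
    (C : G →L[ℂ] G), MacaevClass (C - ContinuousLinearMap.adjoint C) 1 →
    (CentralInReductive C → IsStarNormal C) ∧ ModelsNormal C

/-- Reductive algebras generated by commuting operators. -/
def Algebras : Prop :=
  ∀ (H : Type) [NormedAddCommGroup H] [InnerProductSpace ℂ H] [CompleteSpace H]
    (𝒢 : Set (H →L[ℂ] H)), (∀ S ∈ 𝒢, ∀ T ∈ 𝒢, Commute S T) →
    (∀ T ∈ 𝒢, MacaevClass (T - ContinuousLinearMap.adjoint T) 1 ∨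
      (CentralInReductive T → IsStarNormal T)) →
    (ReductiveFamily (genAlg 𝒢) ↔
      ∀ S ∈ genAlg 𝒢, ContinuousLinearMap.adjoint S ∈ genAlg 𝒢 ∧ IsStarNormal S)

/-- Couplings outside a set of capacity zero. -/
def Couplings : Prop :=
  ∀ (G : Type) [NormedAddCommGroup G] [InnerProductSpace ℂ G] [CompleteSpace G]
    (N K : G →L[ℂ] G) (η s : ℝ), 0 < η → η < s → IsStarNormal N → SingularDecay K η →
    IsTotallyDisconnected {z | z ∈ spectrum ℂ N ∧ ¬ ThinAt (spectrum ℂ N) z s} →
    CapacityZero {κ : ℂ | ¬ ((CentralInReductive (N + κ • K) → IsStarNormal (N + κ • K)) ∧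
      CompactModelsNormal (N + κ • K) ∧ (volume (spectrum ℂ N) = 0 → ModelsNormal (N + κ • K)))}

/-- Toeplitz operators with Hölder continuous symbols of order `α > 1/2`, or of any positive order and with thin
image. -/
def Toeplitz : Prop :=
  ∀ (H : Type) [NormedAddCommGroup H] [InnerProductSpace ℂ H] [CompleteSpace H]
    (e : HilbertBasis ℕ ℂ H) (φ : UnitAddCircle → ℂ) (L α : ℝ≥0), 0 < α → HolderWith L α φ →
    ((1 / 2 : ℝ) < α ∨ ∃ p : ℝ, 1 < p ∧ LogThin (Set.range φ) p) →
    ∀ T : H →L[ℂ] H, (∀ i j : ℕ, ⟪e i, T (e j)⟫_ℂ = fourierCoeff φ ((i : ℤ) - (j : ℤ))) →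
    (CentralInReductive T ↔ IsStarNormal T) ∧ (CentralInReductive T ↔ Reductive T) ∧
    (CentralInReductive T ↔ ValuesOnLine φ)

/-- Complements: reductive operators; good points; Hölder graphs are accessible; classes of compact operators; thin sets; sets of capacity zero. -/
def Complements : Prop :=
  (∀ (H : Type) [NormedAddCommGroup H] [InnerProductSpace ℂ H] [CompleteSpace H]
    (T : H →L[ℂ] H), Reductive T → CentralInReductive T) ∧
  (∀ φ : ℝ → ℝ, Continuous φ → ∀ (u : ℂ), ‖u‖ = 1 → ∀ m : ℝ → ℝ, (∀ s, 0 ≤ m s) →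
    (∀ s t : ℝ, 0 < s → s ≤ t → m t ≤ m s) → IntegrableOn m (Set.Ioc 0 1) →
    ∀ (l : ℂ) (R : ℝ), 0 < R → ThinLevels (fun z => m |(u * z).im - φ (u * z).re|) (ball l R)) ∧
  (∀ (E : Set ℂ) (l : ℂ) (η α : ℝ), 0 < η → 1 / 2 < α → α ≤ 1 → η < 2 * α - 1 → IsClosed E →
    E.Nonempty → OnHoelderGraph E l α → Accessible E l η) ∧
  (∀ (H : Type) [NormedAddCommGroup H] [InnerProductSpace ℂ H] [CompleteSpace H]
    (K : H →L[ℂ] H) (p η : ℝ), 0 < p → 0 < η → Schatten K p → SingularDecay K η) ∧
  (∀ (H : Type) [NormedAddCommGroup H] [InnerProductSpace ℂ H] [CompleteSpace H]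
    (K : H →L[ℂ] H) (η β : ℝ), 0 < η → η < β → SingularDecay K η → MacaevClass K β) ∧
  (∀ (E : Set ℂ) (C ε s : ℝ), 0 < s → s < ε →
    (∀ δ : ℝ, 0 < δ → δ ≤ 1 → volume {z : ℂ | infDist z E ≤ δ} ≤ ENNReal.ofReal (C * δ ^ ε)) →
    ∀ l : ℂ, ThinAt E l s) ∧
  ∀ S : Set ℂ, CapacityZero S → volume S = 0 ∧ volume {t : ℝ | (t : ℂ) ∈ S} = 0

open Pool.Agent.H933

theorem good_dom {H : Type} [NormedAddCommGroup H] [InnerProductSpace ℂ H] [CompleteSpace H]
    {T : H →L[ℂ] H} {l : ℂ} (h : GoodPoint T l) : EP.DomAt T l := by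
  obtain ⟨q, r, a, b, h1, h2, h3, h4, h5, h6, h7⟩ := h
  exact EP.domAt_of EP.domar2 T l q r a b h1 h2 h3 h4 h5 h6 h7

theorem good_of_logLog {H : Type} [NormedAddCommGroup H] [InnerProductSpace ℂ H] [CompleteSpace H]
    {T : H →L[ℂ] H} {l : ℂ} (h : LL.LogLogAt T l) : GoodPoint T l := by
  obtain ⟨q, r, hq, hr, h1, h2⟩ := h
  exact ⟨q, r, fun z => Real.posLog (Real.posLog ‖resolvent T z‖), fun _ => 0, hq, hr, h1,
    fun z => Real.posLog_nonneg, h2, EP.thinLevels_zero l r hr,
    Filter.Eventually.of_forall fun z => by simp⟩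

theorem fav_of {G : Type} [NormedAddCommGroup G] [InnerProductSpace ℂ G] [CompleteSpace G]
    {K : G →L[ℂ] G} {E : Set ℂ} {l : ℂ} (hne : E.Nonempty) (h : Favourable E K l) :
    EP.Fav E K l := by
  rcases h with ⟨η, h1, h2, h3⟩ | h
  · exact Or.inl ⟨η, h1, h2, LL.acc_of_accessible h1 hne h3⟩
  · exact Or.inr h

theorem criterion : Criterion := by
  intro H _ _ _ T q hq hc h hbad
  have hbad' : IsTotallyDisconnected
      {z | z ∈ spectrum ℂ (aeval T q) ∧ ¬ EP.DomAt (aeval T q) z} :=
    RN.totDisc_mono hbad fun z hz => ⟨hz.1, fun hg => hz.2 (good_dom hg)⟩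
  refine EP.cir_criterion2 hc hq hbad' ?_
  rcases h with h | ⟨G, i1, i2, i3, N, J, h1, h2, h3, h4⟩
  · exact Or.inl h
  · exact Or.inr ⟨G, i1, i2, i3, N, J, h1, h2, h3, h4⟩

theorem of_good {G : Type} [NormedAddCommGroup G] [InnerProductSpace ℂ G] [CompleteSpace G]
    {N K : G →L[ℂ] G} (hN : IsStarNormal N) (hK : IsCompactOperator K) {n : Prop}
    (h : EP.GoodOpA (N + K) n) :
    (CentralInReductive (N + K) → IsStarNormal (N + K)) ∧ CompactModelsNormal (N + K) ∧
    (n → ModelsNormal (N + K)) :=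
  ⟨fun hc => h.self hN hK hc,
    fun H _ _ _ T q J hc hsc hq hJ hD => h H T q J hc hq hJ hD (Or.inl hsc),
    fun hn H _ _ _ T q J hc hq hJ hD => h H T q J hc hq hJ hD (Or.inr hn)⟩

theorem individual : Individual := by
  intro G _ _ _ N K hN hK hbad
  have hbad' : IsTotallyDisconnected
      {z | z ∈ spectrum ℂ N ∧ ¬ EP.Fav (spectrum ℂ N) K z} :=
    RN.totDisc_mono hbad fun z hz => ⟨hz.1, fun hg => hz.2 (fav_of ⟨z, hz.1⟩ hg)⟩
  exact of_good hN hK (EP.goodA hN hK hbad')

theorem imaginaryPart : ImaginaryPart := by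
  intro G _ _ _ C hC
  obtain ⟨N, K, h1, h2, h3, h4, h5⟩ := EP.cartesian C hC
  have h6 : IsTotallyDisconnected {z | z ∈ spectrum ℂ N ∧ ¬ Favourable (spectrum ℂ N) K z} := by
    intro S hS _ x hx
    refine absurd (Or.inr ⟨1, by norm_num, le_rfl, ?_, h5 x⟩) (hS hx).2
    rw [show (2 * 1 - 1 : ℝ) = 1 by norm_num]
    exact h3
  obtain ⟨h7, h8, h9⟩ := individual G N K h1 (EP.rateM.2 G K 1 one_pos h3) h6
  rw [h2] at h7 h9
  exact ⟨h7, h9 h4⟩

theorem algebras : Algebras := by
  intro H _ _ _ 𝒢 hc h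
  exact EP.algebras 𝒢 hc fun T hT hcen => (h T hT).elim
    (fun h1 => (imaginaryPart H T h1).1 hcen) (fun h1 => h1 hcen)

theorem couplings : Couplings := by
  intro G _ _ _ N K η s hη hs hN hK hbad
  have hKc : IsCompactOperator K := Pool.Agent.H21.LL.p_nor5.2.2 G K η hη hK
  exact LL.CapNull.mono (EP.couplingsA hη hs hN hK hbad) fun κ hκ hg =>
    hκ (of_good hN (hKc.smul κ) hg)

theorem toeplitz : Toeplitz := by
  intro H _ _ _ e φ L α hα hφ hE T hT
  obtain ⟨p, hp, hE⟩ : ∃ p : ℝ, 1 < p ∧ LogThin (Set.range φ) p := by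
    rcases hE with h | h
    · exact ⟨2, by norm_num, EP.hoelder_thin φ L α h hφ 2 (by norm_num)⟩
    · exact h
  have h1 : CentralInReductive T → IsStarNormal T := fun hred => by
    refine EP.cir_criterion hred (q := X) (by rw [natDegree_X]; exact one_pos)
      (Pool.Agent.H52.RN.p_toesc H e φ (hφ.continuous hα) T hT) ?_
    have hall : ∀ z : ℂ, LL.LogLogAt (aeval T (X : ℂ[X])) z := by
      intro z
      rw [aeval_X]
      exact EP.ToeA.p_toeA e φ L α p hα hφ hp ⟨hE.2.2.1, hE.2.2.2⟩ T hT hred z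
    intro S hS hc x hx
    exact absurd (EP.domAt_of_logLogAt EP.domar2 (hall x)) (hS hx).2
  have h2 : IsStarNormal T → ValuesOnLine φ := fun h =>
    Pool.Agent.Q76.RT.line_of_normal (b := e) ⟨φ, hφ.continuous hα⟩ T hT h
  have h3 : ValuesOnLine φ → Reductive T := fun h =>
    Pool.Agent.Q76.RT.red_of_line (b := e) ⟨φ, hφ.continuous hα⟩ T hT h
  have h4 : Reductive T → CentralInReductive T := fun h => EP.cir_of_reductive h
  exact ⟨⟨h1, fun h => h4 (h3 (h2 h))⟩, ⟨fun h => h3 (h2 (h1 h)), h4⟩,
    ⟨fun h => h2 (h1 h), fun h => h4 (h3 h)⟩⟩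

theorem complements : Complements := by
  refine ⟨fun H _ _ _ T h => EP.cir_of_reductive h, EP.thin_strip', fun E l η α hη hα hα1 hηα hE hne hG => ?_, Pool.Agent.H21.LL.p_nor5.2.1,
    fun H _ _ _ K η β hη hβ hK => EP.macaev_of_decay K η β hη hβ hK,
    fun E C ε s hs hsε h l => ?_, Pool.Agent.H337.LL.p_cap⟩
  · obtain ⟨φ, L, R, u, h1, h2, h3, h4⟩ := hG
    exact LL.accessible_of_graph E l η hη hE hne ⟨φ, L, α, R, u, hα, hα1, hηα, h1, h2, h3, h4⟩
  · have h1 : LL.Thin E := ⟨C, ε, hs.trans hsε, h⟩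
    refine ⟨1, one_pos, measure_mono_null Set.inter_subset_left (LL.logThin_of_thin h1 1 one_pos).1,
      (Pool.Agent.H903.LL.p_box5 E C ε s (‖l‖ + 1) hs hsε h).mono_set ?_⟩
    refine ball_subset_ball' ?_
    rw [dist_zero_right]
    linarith

theorem result :
    Criterion ∧ Individual ∧ ImaginaryPart ∧ Algebras ∧ Couplings ∧ Toeplitz ∧ Complements :=
  ⟨criterion, individual, imaginaryPart, algebras, couplings, toeplitz, complements⟩

end Pool.Agent.Results.MP_49c4d9_an.ReductiveLogLog
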