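import Pool.Agent.H259.PC.Main
import Pool.Graph.R_pool_sql_team_seeded_c8625f6e.Results.MP_49c4d9_an.ReductivePolynomialSimilar

/-!
# MP_49c4d9_an: reductive operators in the algebra generated by Toeplitz and Hankel operators

Let `H` be a Hilbert space with an orthonormal basis `b 0, b 1, …` (the Hardy space of the circle). For a bounded
function `a` on the circle with Fourier coefficients `â n` the Toeplitz operator has the matrix `â (i - j)`, the
Hankel operator has the matrix `â (i + j + 1)`. A bounded function is piecewise Lipschitz if it is Lipschitz on the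
arcs which do not meet a finite set; it may have jumps there. The theorem: an operator in the algebra generated by
**all Toeplitz and all Hankel operators with piecewise Lipschitz symbols** and by the operators of all
Schatten classes is normal if it is reductive.

This algebra is not commutative modulo the compact operators; its operators may be far from essentially normal.
Modulo compact operators the local algebra at a jump point `1` or `-1` is an algebra of functions on a circle, and
at a pair of jump points `z`, `1 / z` an algebra of two by two matrices of such functions, which may be Jordan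
blocks.

Proof. Everything is done modulo the ideal of operators with polynomially decaying approximation numbers. Let `P` be
the Riesz projection, `F f x = e₋₁ x * f (-x)` the flip, `χ` the indicator function of the upper half circle.
`A = P χ P` and `Γ = P χ F P` commute, `Γ² = A² - A`, and `U = 1 - 2 A + 2 Γ` is unitary. If `w` is a weight at the
point `1` and `R_τ` the rotations, then every `T` in the algebra is `P a P + ∑ R_σ⁻¹ N_στ (U) Γ w R_τ` with a piecewise
Lipschitz function `a` and a matrix `N` of Laurent polynomials. The operator `J = (u, (Γ w R_τ)_τ)`, where `u`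
vanishes at the jumps, intertwines `T` and `S = a ⊕ (D + Γ N)(U)`, where `D` is the diagonal matrix of the `α + β A`,
`α` and `α + β` the limits of `a` at the jump; and `L J = g (T)` for an operator `L` and the polynomial `g` with
the roots `α`, `α + β`. Adding triangular summands to `S` the polynomial is removed, root by root. The
resolvent of `S` grows like a power of the distance to the rectifiable curve which consists of the values of `a` and
the eigenvalues of the matrices `(D + γ N)(t)`, `|t| = 1`. The theorem about reductive operators which are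
related to operators with polynomially growing resolvents (`RR.final`, the module behind `PolynomialGrowthModel`)
gives the normality.
-/

set_option autoImplicit false

open scoped InnerProductSpace

namespace Pool.Agent.Results.MP_49c4d9_an.ReductiveToeplitzHankel

/-- `T` is reductive: every closed invariant subspace of `T` is invariant under the adjoint. -/
def Reductive {H : Type} [NormedAddCommGroup H] [InnerProductSpace ℂ H] [CompleteSpace H]
    (T : H →L[ℂ] H) : Prop :=
  ∀ V : Submodule ℂ H, IsClosed (V : Set H) → (∀ x ∈ V, T x ∈ V) →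
    ∀ x ∈ V, ContinuousLinearMap.adjoint T x ∈ V

/-- The distance in operator norm from `D` to the operators of rank at most `m` (the singular
number `s_{m+1}(D)`). -/
noncomputable def approxNumber {H : Type} [NormedAddCommGroup H] [InnerProductSpace ℂ H]
    (D : H →L[ℂ] H) (m : ℕ) : ℝ :=
  sInf {r : ℝ | ∃ F : H →L[ℂ] H, FiniteDimensional ℂ (LinearMap.range (F : H →ₗ[ℂ] H)) ∧
    Module.finrank ℂ (LinearMap.range (F : H →ₗ[ℂ] H)) ≤ m ∧ r = ‖D - F‖}

/-- `D` is in the Schatten class `C_p` for some finite `p > 0`. -/
def InSchatten {H : Type} [NormedAddCommGroup H] [InnerProductSpace ℂ H] (D : H →L[ℂ] H) : Prop :=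
  ∃ p : ℝ, 0 < p ∧ Summable fun m : ℕ => approxNumber D m ^ p

/-- The function `a` on the circle `ℝ / ℤ` is bounded, and it is Lipschitz on all arcs which do not meet a
certain finite set `F`. At the points of `F` it may have jumps. -/
def PiecewiseLipschitz (a : AddCircle (1 : ℝ) → ℂ) : Prop :=
  (∃ M : ℝ, ∀ x, ‖a x‖ ≤ M) ∧ ∃ (F : Finset (AddCircle (1 : ℝ))) (L : ℝ), ∀ x y : ℝ, x ≤ y →
    (∀ z ∈ Set.Icc x y, (z : AddCircle (1 : ℝ)) ∉ F) →
      ‖a (x : AddCircle (1 : ℝ)) - a (y : AddCircle (1 : ℝ))‖ ≤ L * (y - x)

/-- `T` is a Toeplitz operator with a piecewise Lipschitz symbol `a`: the matrix is `â (i - j)`. -/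
def IsToeplitz {H : Type} [NormedAddCommGroup H] [InnerProductSpace ℂ H]
    (b : HilbertBasis ℕ ℂ H) (T : H →L[ℂ] H) : Prop :=
  ∃ a : AddCircle (1 : ℝ) → ℂ, PiecewiseLipschitz a ∧
    ∀ i j : ℕ, ⟪b i, T (b j)⟫_ℂ = fourierCoeff a ((i : ℤ) - j)

/-- `T` is a Hankel operator with a piecewise Lipschitz symbol `a`: the matrix is `â (i + j + 1)`. -/
def IsHankel {H : Type} [NormedAddCommGroup H] [InnerProductSpace ℂ H]
    (b : HilbertBasis ℕ ℂ H) (T : H →L[ℂ] H) : Prop :=
  ∃ a : AddCircle (1 : ℝ) → ℂ, PiecewiseLipschitz a ∧
    ∀ i j : ℕ, ⟪b i, T (b j)⟫_ℂ = fourierCoeff a ((i : ℤ) + j + 1)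

open Pool.Agent.H259.RH Pool.Agent.H259.PC

/-- **Theorem.** Let `b 0, b 1, …` be an orthonormal basis of the Hilbert space `H`. Every reductive operator in
the algebra generated by the Toeplitz operators and the Hankel operators with piecewise Lipschitz symbols, the
operators of the Schatten classes and the identity is normal. -/
theorem result (H : Type) [NormedAddCommGroup H] [InnerProductSpace ℂ H] [CompleteSpace H]
    (b : HilbertBasis ℕ ℂ H) (T : H →L[ℂ] H)
    (hT : T ∈ Algebra.adjoin ℂ ({A : H →L[ℂ] H | IsToeplitz b A} ∪ {A : H →L[ℂ] H | IsHankel b A} ∪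
      {A : H →L[ℂ] H | InSchatten A})) (hred : Reductive T) : IsStarNormal T := by
  have hPD : ∀ B : H →L[ℂ] H, InSchatten B → PD B := fun B hB =>
    Pool.Agent.Results.MP_49c4d9_an.ReductivePolynomialSimilar.decay hB
  refine (algebra_main (b := b) (fun A hA => ?_) hT).2 hred
  rcases hA with (⟨a, ⟨⟨M, hM⟩, F, L, hL⟩, h⟩ | ⟨a, ⟨⟨M, hM⟩, F, L, hL⟩, h⟩) | h
  · exact ⟨F, Or.inr ⟨a, ⟨L, hL⟩, ⟨M, hM⟩, Or.inl h⟩⟩
  · exact ⟨F, Or.inr ⟨a, ⟨L, hL⟩, ⟨M, hM⟩, Or.inr h⟩⟩
  · exact ⟨∅, Or.inl (hPD A h)⟩

end Pool.Agent.Results.MP_49c4d9_an.ReductiveToeplitzHankel
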