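import Pool.Agent.H270.RWC.Main

/-!
# Reductive weighted composition operators on Hilbert spaces of holomorphic functions

A Hilbert space of functions on a set is given by a Hilbert space `H` and vectors `k z` (the
reproducing kernels): the element `F` of `H` is the function `z ↦ ⟪k z, F⟫`.  A weighted composition
operator is a bounded operator `T F = ψ · (F ∘ φ)`.

(1) `Ω` is a connected open set in `ℂ^n` (any finite-dimensional space), `H` is any Hilbert space of
holomorphic functions on `Ω`, `φ` is a holomorphic self-map of `Ω` with a fixed point.  If `T` is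
reductive, then `T` is normal.

(2) `Ω` is the unit ball of `ℂ^n`, `H` has the kernel `(1 - ⟨z, w⟩)^(-g)`, `g > 0` any real number
(Drury-Arveson space, Hardy space, all weighted Bergman spaces, spaces of Dirichlet type), `φ` is any
holomorphic self-map of the ball.  If `T` is reductive, then `T` is normal.

(3) `H` is a Hilbert space of holomorphic functions on the right half plane with a kernel of the form
`κ(z + conj w)` (invariant under vertical translations), `κ x` bounded for `x ≥ 1`.  Every reductive
operator in the reflexive hull of all weighted composition operators with `re z ≤ re φ(z)` is normal.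

Idea of proof of (2) without fixed point.  By the theorem of Wolff one can pass to the Siegel domain
`re a > ‖v‖²` so that `φ` does not decrease the height `re a - ‖v‖²`.  The translations
`e_(a,v) ↦ e_(a+t,v)` of the kernels form a semigroup of positive contractions `S_t`.  The estimate
`|⟪e_z, S_t^n T F⟫| ≤ ‖T‖ ‖F‖ ‖e_z‖ r^n` for `F` in the spectral subspace of `S_t` for `[0, r]` shows
that all these spectral subspaces are `T`-invariant; as `T` is reductive, it commutes with all `S_t`.
Hence (with theorems of Liouville) `ψ` is constant and `φ(a,v) = (a + b(v), A v + c)` in suitable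
coordinates; the closed spans of the kernels over the `A`-invariant subspaces are invariant under
`T†`, and reducing; this determines `b` and shows that `A` is normal; then `T` is normal.
-/

set_option autoImplicit false

open Metric Set
open scoped InnerProductSpace ComplexConjugate

namespace Pool.Agent.Results.MP_49c4d9_an.WeightedCompositionAllKernels

/-- `M` is a closed invariant subspace of `T`. -/
def Inv {H : Type} [NormedAddCommGroup H] [InnerProductSpace ℂ H] (T : H →L[ℂ] H)
    (M : Submodule ℂ H) : Prop :=
  IsClosed (M : Set H) ∧ ∀ x ∈ M, T x ∈ M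

/-- Every closed invariant subspace of `T` is invariant under the adjoint. -/
def Reductive {H : Type} [NormedAddCommGroup H] [InnerProductSpace ℂ H] [CompleteSpace H]
    (T : H →L[ℂ] H) : Prop :=
  ∀ M : Submodule ℂ H, Inv T M → Inv (ContinuousLinearMap.adjoint T) M

/-- The value at `z` of the function `F : H`, where `k z` is the reproducing kernel at `z`. -/
noncomputable def val {E H : Type} [NormedAddCommGroup H] [InnerProductSpace ℂ H]
    (k : E → H) (F : H) (z : E) : ℂ := ⟪k z, F⟫_ℂ

/-- The elements of `H` are determined by their values on `Ω`. -/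
def Determined {E H : Type} [NormedAddCommGroup H] [InnerProductSpace ℂ H]
    (Ω : Set E) (k : E → H) : Prop :=
  ∀ F : H, (∀ z ∈ Ω, val k F z = 0) → F = 0

/-- `T` is the operator `F ↦ ψ · (F ∘ φ)` on functions on `Ω`, and `φ` maps `Ω` into itself. -/
def IsWeightedComposition {E H : Type} [NormedAddCommGroup H] [InnerProductSpace ℂ H]
    (Ω : Set E) (k : E → H) (ψ : E → ℂ) (φ : E → E) (T : H →L[ℂ] H) : Prop :=
  MapsTo φ Ω Ω ∧ ∀ (F : H), ∀ z ∈ Ω, val k (T F) z = ψ z * val k F (φ z)

/-- The open right half plane. -/
def HalfPlane : Set ℂ := {z : ℂ | 0 < z.re}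

/-- `T` leaves invariant every closed subspace which is invariant under all the weighted
composition operators on the half plane whose symbol `φ` satisfies `re z ≤ re (φ z)`. -/
def HalfPlaneHull {H : Type} [NormedAddCommGroup H] [InnerProductSpace ℂ H]
    (e : ℂ → H) (T : H →L[ℂ] H) : Prop :=
  ∀ M : Submodule ℂ H, IsClosed (M : Set H) →
    (∀ (ψ φ : ℂ → ℂ) (S : H →L[ℂ] H), (∀ z ∈ HalfPlane, z.re ≤ (φ z).re) →
      IsWeightedComposition HalfPlane e ψ φ S → Inv S M) → Inv T M

/-- **Theorem.**  Reductive weighted composition operators are normal: (1) on every Hilbert space of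
holomorphic functions on a connected domain in `ℂ^n`, if the symbol has a fixed point in the domain;
(2) on the spaces with the kernel `(1 - ⟨z, w⟩)^(-g)`, `g > 0`, on the unit ball of `ℂ^n`, for all
holomorphic symbols; (3) on the half plane with a translation invariant kernel, in the form for the
reflexive hull. -/
theorem result (H : Type) [NormedAddCommGroup H] [InnerProductSpace ℂ H] [CompleteSpace H] :
    -- (1) arbitrary Hilbert spaces of holomorphic functions, symbol with a fixed point
    (∀ (E : Type) [NormedAddCommGroup E] [InnerProductSpace ℂ E] [FiniteDimensional ℂ E]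
      (Ω : Set E) (k : E → H), IsOpen Ω → IsPreconnected Ω →
      (∀ F : H, AnalyticOnNhd ℂ (val k F) Ω) → Determined Ω k →
      ∀ (ψ : E → ℂ) (φ : E → E) (T : H →L[ℂ] H), DifferentiableOn ℂ ψ Ω → DifferentiableOn ℂ φ Ω →
        IsWeightedComposition Ω k ψ φ T → (∃ p ∈ Ω, φ p = p) → Reductive T → IsStarNormal T) ∧
    -- (2) the ball of `E` and the kernel `(1 - ⟨z, w⟩)^(-g)`, where `⟨z, w⟩ = ⟪w, z⟫`
    (∀ (E : Type) [NormedAddCommGroup E] [InnerProductSpace ℂ E] [FiniteDimensional ℂ E]
      (g : ℝ) (k : E → H), 0 < g →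
      (∀ z ∈ ball (0 : E) 1, ∀ w ∈ ball (0 : E) 1, val k (k w) z = (1 - ⟪w, z⟫_ℂ) ^ (-(g : ℂ))) →
      Determined (ball (0 : E) 1) k →
      ∀ (ψ : E → ℂ) (φ : E → E) (T : H →L[ℂ] H), DifferentiableOn ℂ φ (ball (0 : E) 1) →
        IsWeightedComposition (ball (0 : E) 1) k ψ φ T → Reductive T → IsStarNormal T) ∧
    -- (3) the half plane and a kernel `κ (z + conj w)`
    (∀ (κ : ℂ → ℂ) (e : ℂ → H),
      (∀ z ∈ HalfPlane, ∀ w ∈ HalfPlane, val e (e w) z = κ (z + conj w)) →
      (∀ F : H, DifferentiableOn ℂ (val e F) HalfPlane) → Determined HalfPlane e →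
      (∃ C : ℝ, ∀ x : ℝ, 1 ≤ x → ‖κ x‖ ≤ C) →
      ∀ T : H →L[ℂ] H, HalfPlaneHull e T → Reductive T → IsStarNormal T) := by
  refine ⟨?_, ?_, ?_⟩
  · intro E _ _ _ Ω k hΩ hc hhol hdet ψ φ T hψ hφ hT hfix hR
    obtain ⟨p, hp, hfp⟩ := hfix
    exact Pool.Agent.H270.RWC.main_interior E H Ω k ψ φ T p hΩ hc ⟨hhol, hdet⟩
      ⟨hψ, hφ, hT.1, hT.2⟩ hp hfp hR
  · intro E _ _ _ g k hg hgram hdet ψ φ T hφ hT hR
    exact Pool.Agent.H270.RWC.main E H g k ψ φ T hg
      ⟨fun z w hz hw => hgram z (mem_ball_zero_iff.2 hz) w (mem_ball_zero_iff.2 hw),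
        fun y hy => hdet y fun z hz => hy z (mem_ball_zero_iff.1 hz)⟩
      ⟨hφ, hT.1, fun F z hz => hT.2 F z (mem_ball_zero_iff.2 hz)⟩ hR
  · intro κ e hgram hhol hdet hb T hT hR
    refine Pool.Agent.H270.RWC.main_half H κ e T ⟨fun z w hz hw => hgram z hz w hw, hhol, hdet, hb⟩
      ?_ hR
    intro M hM hinv
    refine hT M hM ?_
    intro ψ φ S hre hS
    exact hinv S ⟨ψ, φ, fun z hz => hre z hz, fun F z hz => hS.2 F z hz⟩

end Pool.Agent.Results.MP_49c4d9_an.WeightedCompositionAllKernels
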